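import Mathlib
import Pool.Agent.H759R2.Kad.Props3

open scoped ComplexOrder InnerProductSpace ComplexConjugate
open Finset

noncomputable section

namespace H759R2.Kad

universe u v

namespace A30

/-- The matrix with `b` at the place `(i, i)`, as a *-homomorphism. -/
def cornerHom {B : Type u} [CStarAlgebra B] [PartialOrder B] [StarOrderedRing B] {L : ℕ}
    (i : Fin L) : B →⋆ₙₐ[ℂ] CStarMatrix (Fin L) (Fin L) B where
  toFun b := CStarMatrix.ofMatrix (Matrix.single i i b)
  map_smul' c b := by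
    ext a a'
    simp [Matrix.single_apply]
  map_zero' := by
    ext a a'
    simp
  map_add' x y := by
    ext a a'
    simp [Matrix.single_apply]
    split_ifs <;> simp
  map_mul' x y := by
    ext a a'
    simp only [CStarMatrix.mul_apply, CStarMatrix.ofMatrix_apply, Matrix.single_apply]
    by_cases h1 : i = a
    · by_cases h2 : i = a'
      · subst h1
        subst h2
        simp
      · simp [h2]
    · simp [h1]
  map_star' x := by
    ext a a'
    simp only [CStarMatrix.star_apply, CStarMatrix.ofMatrix_apply, Matrix.single_apply]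
    by_cases h1 : i = a
    · by_cases h2 : i = a'
      · subst h1
        subst h2
        simp
      · simp [h2]
    · simp [h1]

theorem cornerHom_apply {B : Type u} [CStarAlgebra B] [PartialOrder B] [StarOrderedRing B] {L : ℕ}
    (i : Fin L) (b : B) (a a' : Fin L) :
    cornerHom i b a a' = if i = a ∧ i = a' then b else 0 := by
  show CStarMatrix.ofMatrix (Matrix.single i i b) a a' = _
  simp [Matrix.single_apply]

theorem norm_inj {H : Type v} [NormedAddCommGroup H] [InnerProductSpace ℂ H] {L : ℕ}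
    (i : Fin L) (x : H) : ‖inj (H := H) i x‖ = ‖x‖ := by
  have : ‖inj (H := H) i x‖ ^ 2 = ‖x‖ ^ 2 := by
    rw [PiLp.norm_sq_eq_of_L2]
    rw [Finset.sum_eq_single i]
    · rw [inj_apply, if_pos rfl]
    · intro j _ hj
      rw [inj_apply, if_neg hj]
      simp
    · simp
  exact (sq_eq_sq₀ (norm_nonneg _) (norm_nonneg _)).1 this

end A30

open A30 in
theorem prove3_final (h1 : K_main.{u, v}) (h2 : K_sim.{u, v}) (h3 : K_units.{u, v}) (h4 : K_nest.{u, v})
    (h5 : K_transport.{u, v}) : K_final.{u, v} := by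
  intro B _ _ _ τ hτ hdix horth H _ _ _ L m hm hL u hu c hc hbd
  have hc0 : 0 ≤ c := zero_le_one.trans hc
  have hLpos : 0 < L := by
    have : 0 < 25920 * m ^ 11 := by positivity
    omega
  obtain ⟨S, S', hSS', hS'S, hS, hS', hstar⟩ := h2 B H L u hu c hc0 hbd
  let u' : CStarMatrix (Fin L) (Fin L) B →ₗ[ℂ] (H →L[ℂ] H) :=
    { toFun := fun X => S * u X * S'
      map_add' := fun X Y => by rw [map_add, mul_add, add_mul]
      map_smul' := fun r X => by
        rw [map_smul, mul_smul_comm, smul_mul_assoc, RingHom.id_apply] }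
  have hu' : IsHom u' := by
    refine ⟨fun X Y => ?_, ?_⟩
    · show S * u (X * Y) * S' = (S * u X * S') * (S * u Y * S')
      rw [hu.mul]
      calc S * (u X * u Y) * S' = S * u X * 1 * u Y * S' := by
            simp only [mul_assoc, one_mul]
        _ = S * u X * (S' * S) * u Y * S' := by rw [hS'S]
        _ = _ := by simp only [mul_assoc]
    · show S * u 1 * S' = 1
      rw [hu.one, mul_one, hSS']
  have hbd' : ∀ X, ‖u' X‖ ≤ c ^ 3 * ‖X‖ := by
    intro X
    show ‖S * u X * S'‖ ≤ _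
    calc ‖S * u X * S'‖ ≤ ‖S‖ * ‖u X‖ * ‖S'‖ := by
          refine (norm_mul_le _ _).trans ?_
          exact mul_le_mul_of_nonneg_right (norm_mul_le _ _) (norm_nonneg _)
      _ ≤ c * (c * ‖X‖) * c := by
          have := hbd X
          gcongr
      _ = c ^ 3 * ‖X‖ := by ring
  obtain ⟨K, iK1, iK2, iK3, w, V, hw, hV⟩ := h3 B H L hLpos u' hu' hstar
  have hlvl : LvlBd w L (c ^ 3) := by
    intro Y
    refine ContinuousLinearMap.opNorm_le_bound _ (by positivity) fun ξ => ?_
    have e1 : ‖amp w (Fin L) Y ξ‖ = ‖u' Y (V ξ)‖ := by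
      rw [hV, LinearIsometryEquiv.norm_map]
    rw [e1]
    calc ‖u' Y (V ξ)‖ ≤ ‖u' Y‖ * ‖V ξ‖ := ContinuousLinearMap.le_opNorm _ _
      _ ≤ c ^ 3 * ‖Y‖ * ‖ξ‖ := by
        rw [LinearIsometryEquiv.norm_map]
        exact mul_le_mul_of_nonneg_right (hbd' Y) (norm_nonneg _)
  have hwb : ∀ b, ‖w b‖ ≤ c ^ 3 * ‖b‖ := by
    intro b
    refine ContinuousLinearMap.opNorm_le_bound _ (by positivity) fun ξ => ?_
    let i0 : Fin L := ⟨0, hLpos⟩
    have e1 : w b ξ = amp w (Fin L) (cornerHom i0 b) (inj i0 ξ) i0 := by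
      rw [amp_apply, Finset.sum_eq_single i0]
      · rw [cornerHom_apply, inj_apply]
        simp
      · intro j _ hj
        rw [inj_apply, if_neg hj, map_zero]
      · simp
    calc ‖w b ξ‖ = ‖amp w (Fin L) (cornerHom i0 b) (inj i0 ξ) i0‖ := by rw [e1]
      _ ≤ ‖amp w (Fin L) (cornerHom i0 b) (inj i0 ξ)‖ := PiLp.norm_apply_le _ _
      _ ≤ ‖amp w (Fin L) (cornerHom i0 b)‖ * ‖inj (H := K) i0 ξ‖ :=
          ContinuousLinearMap.le_opNorm _ _
      _ ≤ (c ^ 3 * ‖cornerHom i0 b‖) * ‖ξ‖ := by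
          rw [norm_inj]
          exact mul_le_mul_of_nonneg_right (hlvl _) (norm_nonneg _)
      _ ≤ (c ^ 3 * ‖b‖) * ‖ξ‖ := by
          have : ‖cornerHom i0 b‖ ≤ ‖b‖ := NonUnitalStarAlgHom.norm_apply_le (cornerHom i0) b
          gcongr
  have hmain := h1 B K w τ hw hτ hdix horth (c ^ 3) (one_le_pow₀ hc) hwb L m hm hL hlvl
  have hnest := h4 B K w L m (216 * (c ^ 3) ^ 7) (by positivity) hmain
  have htr := h5 (CStarMatrix (Fin L) (Fin L) B) H (HH (Fin L) K) u (amp w (Fin L)) V S S' c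
    (216 * (c ^ 3) ^ 7) hc0 (by positivity) hS'S hS hS' (fun X ξ => hV X ξ) m hnest
  have e : c ^ 2 * (216 * (c ^ 3) ^ 7) = 216 * c ^ 23 := by ring
  rw [e] at htr
  exact htr

end H759R2.Kad
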